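import Mathlib
import Pool.Agent.H525.EX.Stm2

/-!
# Project EX (helper525), task LAT (helper166): counting pairs in lattices, first kind
-/

set_option autoImplicit false

namespace Pool.Agent.H166.EX

open Polynomial
open Pool.Agent.H525.QF Pool.Agent.H525.EX
open scoped Classical

section

variable {K : Type} [Field K]

theorem dvd_of_sq {g G S : K[X]} (hg : g ≠ 0) (hS : Squarefree S) (h : g ^ 2 ∣ G ^ 2 * S) :
    g ∣ G := by
  have hd0 : EuclideanDomain.gcd g G ≠ 0 := fun h0 =>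
    hg (EuclideanDomain.gcd_eq_zero_iff.1 h0).1
  obtain ⟨g1, hg1⟩ := EuclideanDomain.gcd_dvd_left g G
  obtain ⟨G1, hG1⟩ := EuclideanDomain.gcd_dvd_right g G
  have hb := EuclideanDomain.gcd_eq_gcd_ab g G
  obtain ⟨d, hd⟩ : ∃ d, d = EuclideanDomain.gcd g G := ⟨_, rfl⟩
  obtain ⟨a, ha⟩ : ∃ a, a = EuclideanDomain.gcdA g G := ⟨_, rfl⟩
  obtain ⟨b, hbb⟩ : ∃ b, b = EuclideanDomain.gcdB g G := ⟨_, rfl⟩
  rw [← hd, ← ha, ← hbb] at hb
  rw [← hd] at hd0 hg1 hG1
  clear hd ha hbb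
  subst hg1
  subst hG1
  have hc : IsCoprime g1 G1 := by
    refine ⟨a, b, ?_⟩
    apply mul_left_cancel₀ hd0
    rw [mul_one]
    calc d * (a * g1 + b * G1) = d * g1 * a + d * G1 * b := by ring
      _ = d := hb.symm
  have h1 : d ^ 2 * g1 ^ 2 ∣ d ^ 2 * (G1 ^ 2 * S) := by
    rw [mul_pow, mul_pow, mul_assoc] at h
    exact h
  rw [mul_dvd_mul_iff_left (pow_ne_zero 2 hd0)] at h1
  have h2 : g1 ^ 2 ∣ S := (hc.pow (m := 2) (n := 2)).dvd_of_dvd_mul_left h1
  have hu : IsUnit g1 := hS g1 (by rw [← sq]; exact h2)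
  exact mul_dvd_mul_left d (hu.dvd)

theorem exists_cop {x y : K[X]} (hy : y ≠ 0) :
    ∃ D v1 v2 : K[X], D.Monic ∧ IsCoprime v1 v2 ∧ x = D * v1 ∧ y = D * v2 := by
  have h0 : EuclideanDomain.gcd x y ≠ 0 := fun h0 =>
    hy (EuclideanDomain.gcd_eq_zero_iff.1 h0).2
  have hD : (normalize (EuclideanDomain.gcd x y)).Monic := Polynomial.monic_normalize h0
  have has : Associated (EuclideanDomain.gcd x y) (normalize (EuclideanDomain.gcd x y)) :=
    (normalize_associated _).symm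
  obtain ⟨v1, hv1⟩ : normalize (EuclideanDomain.gcd x y) ∣ x :=
    has.symm.dvd.trans (EuclideanDomain.gcd_dvd_left x y)
  obtain ⟨v2, hv2⟩ : normalize (EuclideanDomain.gcd x y) ∣ y :=
    has.symm.dvd.trans (EuclideanDomain.gcd_dvd_right x y)
  have hb := EuclideanDomain.gcd_eq_gcd_ab x y
  obtain ⟨u, hu⟩ := has
  obtain ⟨D, hDd⟩ : ∃ D, D = normalize (EuclideanDomain.gcd x y) := ⟨_, rfl⟩
  obtain ⟨a, ha⟩ : ∃ a, a = EuclideanDomain.gcdA x y := ⟨_, rfl⟩
  obtain ⟨b, hbb⟩ : ∃ b, b = EuclideanDomain.gcdB x y := ⟨_, rfl⟩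
  rw [← hDd] at hD hv1 hv2 hu
  rw [← ha, ← hbb] at hb
  refine ⟨D, v1, v2, hD, ⟨a * u, b * u, ?_⟩, hv1, hv2⟩
  apply mul_left_cancel₀ hD.ne_zero
  rw [mul_one]
  calc D * (a * u * v1 + b * u * v2) = (D * v1 * a + D * v2 * b) * u := by ring
    _ = (x * a + y * b) * u := by rw [← hv1, ← hv2]
    _ = EuclideanDomain.gcd x y * u := by rw [← hb]
    _ = D := hu

/-- uniqueness of the decomposition -/
theorem cop_unique {D D' v1 v2 w1 w2 : K[X]} (hD : D.Monic) (hD' : D'.Monic)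
    (hv : IsCoprime v1 v2) (hw : IsCoprime w1 w2) (h1 : D * v1 = D' * w1)
    (h2 : D * v2 = D' * w2) : D = D' ∧ v1 = w1 ∧ v2 = w2 := by
  have e1 : D' ∣ D := by
    obtain ⟨a, b, hab⟩ := hv
    have : D = D' * (a * w1 + b * w2) := by
      calc D = D * (a * v1 + b * v2) := by rw [hab, mul_one]
        _ = a * (D * v1) + b * (D * v2) := by ring
        _ = a * (D' * w1) + b * (D' * w2) := by rw [h1, h2]
        _ = _ := by ring
    exact ⟨_, this⟩
  have e2 : D ∣ D' := by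
    obtain ⟨a, b, hab⟩ := hw
    have : D' = D * (a * v1 + b * v2) := by
      calc D' = D' * (a * w1 + b * w2) := by rw [hab, mul_one]
        _ = a * (D' * w1) + b * (D' * w2) := by ring
        _ = a * (D * v1) + b * (D * v2) := by rw [h1, h2]
        _ = _ := by ring
    exact ⟨_, this⟩
  have e3 : D = D' := eq_of_monic_of_associated hD hD' (associated_of_dvd_dvd e2 e1)
  subst e3
  exact ⟨rfl, mul_left_cancel₀ hD.ne_zero h1, mul_left_cancel₀ hD.ne_zero h2⟩

theorem F_mul (D v1 v2 : K[X]) : F (D * v1, D * v2) = D ^ 4 * F (v1, v2) := by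
  unfold F
  ring

theorem F_sqf [CharP K 2] {v : K[X] × K[X]} (hv : IsCoprime v.1 v.2) : Squarefree (F v) := by
  have h4 : ((4 : ℕ) : K) = 0 := by
    rw [CharP.cast_eq_zero_iff K 2]
    norm_num
  have hd : derivative (F v) = v.2 ^ 4 := by
    unfold F
    rw [derivative_add, derivative_mul, derivative_X, derivative_pow, derivative_pow, h4]
    simp
  have hs : (F v).Separable := by
    unfold Polynomial.Separable
    rw [hd]
    unfold F
    exact (hv.pow (m := 4) (n := 4)).add_mul_right_left X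
  exact hs.squarefree

theorem cond_iff [CharP K 2] {b g G v1 v2 : K[X]} (hb : Squarefree b) (hg : g ≠ 0) :
    g ^ 2 * b ∣ (g * G) ^ 2 * F (v1, v2) ↔ b ∣ F (G * v1, G * v2) := by
  rw [F_mul, mul_pow, mul_assoc, mul_dvd_mul_iff_left (pow_ne_zero 2 hg)]
  constructor
  · intro h
    refine h.trans ?_
    exact mul_dvd_mul_right (pow_dvd_pow G (by norm_num)) _
  · intro h
    have h1 : b ∣ (G * F (v1, v2)) ^ 4 := by
      refine h.trans ?_
      rw [mul_pow]
      exact mul_dvd_mul_left _ (dvd_pow_self _ (by norm_num))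
    have h2 : b ∣ G * F (v1, v2) := (hb.dvd_pow_iff_dvd (by norm_num)).1 h1
    refine h2.trans ?_
    exact mul_dvd_mul_right (dvd_pow_self G (by norm_num)) _

variable [Fintype K]

theorem mem_lt_mul {D p : K[X]} {j m : ℕ} (hD : D.Monic) (hj : D.natDegree = j) (hjm : j ≤ m) :
    D * p ∈ lt K (m + 1) ↔ p ∈ lt K (m - j + 1) := by
  rw [mem_lt, mem_lt, degree_mul, degree_eq_natDegree hD.ne_zero, hj]
  by_cases hp : p = 0
  · subst hp
    simp
  · rw [degree_eq_natDegree hp, ← Nat.cast_add, Nat.cast_lt, Nat.cast_lt]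
    omega

theorem mem_mon_mul {D p : K[X]} {j m : ℕ} (hD : D.Monic) (hj : D.natDegree = j) (hjm : j ≤ m) :
    D * p ∈ mon K m ↔ p ∈ mon K (m - j) := by
  rw [mem_mon, mem_mon]
  constructor
  · rintro ⟨h1, h2⟩
    have h3 : p.Monic := hD.of_mul_monic_left h1
    refine ⟨h3, ?_⟩
    rw [hD.natDegree_mul h3] at h2
    omega
  · rintro ⟨h1, h2⟩
    refine ⟨hD.mul h1, ?_⟩
    rw [hD.natDegree_mul h1]
    omega

end

theorem t_lat : S_lat := by
  intro K _ _ _ n i b g hbm hb hg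
  rw [mem_mon] at hg
  obtain ⟨hgm, hgi⟩ := hg
  have hg0 := hgm.ne_zero
  -- the set on the left
  have hL : ∑ j ∈ Finset.range (n + 1), ∑ G ∈ mon K j,
      ((cI K (n - j)).filter (fun v => g ^ 2 * b ∣ G ^ 2 * F v)).card =
      ((Finset.range (n + 1)).sigma (fun j => (mon K j).sigma (fun G =>
        (cI K (n - j)).filter (fun v => g ^ 2 * b ∣ G ^ 2 * F v)))).card := by
    rw [Finset.card_sigma]
    refine Finset.sum_congr rfl (fun j _ => ?_)
    rw [Finset.card_sigma]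
  rw [hL]
  -- membership
  have hmem : ∀ t : (Σ _ : ℕ, Σ _ : K[X], K[X] × K[X]),
      t ∈ ((Finset.range (n + 1)).sigma (fun j => (mon K j).sigma (fun G =>
        (cI K (n - j)).filter (fun v => g ^ 2 * b ∣ G ^ 2 * F v)))) →
      ∃ G' : K[X], t.2.1 = g * G' ∧ G'.Monic ∧ t.1 = i + G'.natDegree ∧ t.1 ≤ n ∧
        IsCoprime t.2.2.1 t.2.2.2 ∧ t.2.2.1 ∈ lt K (n - t.1 + 1) ∧ t.2.2.2 ∈ mon K (n - t.1) ∧
        b ∣ F (G' * t.2.2.1, G' * t.2.2.2) := by
    rintro ⟨j, G, v⟩ ht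
    rw [Finset.mem_sigma, Finset.mem_sigma, Finset.mem_filter, Finset.mem_range, mem_mon] at ht
    obtain ⟨h1, ⟨h2, h3⟩, h4, h5⟩ := ht
    unfold cI at h4
    rw [Finset.mem_filter, Finset.mem_product] at h4
    obtain ⟨⟨h6, h7⟩, h8⟩ := h4
    simp only at h1 h2 h3 h5 h6 h7 h8 ⊢
    have hgG : g ∣ G := dvd_of_sq hg0 (F_sqf h8) ((dvd_mul_right (g ^ 2) b).trans h5)
    obtain ⟨G', rfl⟩ := hgG
    have hG' : G'.Monic := hgm.of_mul_monic_left h2
    refine ⟨G', rfl, hG', ?_, by omega, h8, h6, h7, ?_⟩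
    · rw [← h3, hgm.natDegree_mul hG', hgi]
    · exact (cond_iff hb hg0).1 h5
  split_ifs with hin
  · unfold A
    refine Finset.card_bij (fun t _ => ((t.2.1 / g) * t.2.2.1, (t.2.1 / g) * t.2.2.2)) ?_ ?_ ?_
    · intro t ht
      obtain ⟨G', e1, e2, e3, e4, e5, e6, e7, e8⟩ := hmem t ht
      have e9 : t.2.1 / g = G' := by
        rw [e1, mul_div_cancel_left₀ _ hg0]
      rw [e9, Finset.mem_filter, Finset.mem_product]
      refine ⟨⟨?_, ?_⟩, e8⟩
      · rw [mem_lt_mul e2 rfl (by omega)]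
        rw [show n - i - G'.natDegree + 1 = n - t.1 + 1 by omega]
        exact e6
      · rw [mem_mon_mul e2 rfl (by omega)]
        rw [show n - i - G'.natDegree = n - t.1 by omega]
        exact e7
    · rintro ⟨j, G, v⟩ ht ⟨j', G1, v'⟩ ht' hh
      obtain ⟨G', e1, e2, e3, e4, e5, e6, e7, e8⟩ := hmem _ ht
      obtain ⟨G'', f1, f2, f3, f4, f5, f6, f7, f8⟩ := hmem _ ht'
      simp only at e1 e3 e5 f1 f3 f5 hh
      subst e1
      subst f1
      rw [mul_div_cancel_left₀ _ hg0, mul_div_cancel_left₀ _ hg0, Prod.mk.injEq] at hh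
      obtain ⟨k1, k2, k3⟩ := cop_unique e2 f2 e5 f5 hh.1 hh.2
      subst k1
      have k4 : j = j' := by omega
      subst k4
      have k5 : v = v' := Prod.ext k2 k3
      subst k5
      rfl
    · intro w hw
      rw [Finset.mem_filter, Finset.mem_product] at hw
      obtain ⟨⟨h1, h2⟩, h3⟩ := hw
      have h2' := mem_mon.1 h2
      obtain ⟨D, v1, v2, hD, hc, hx, hy⟩ := exists_cop (x := w.1) h2'.1.ne_zero
      have hv2 : v2.Monic := by
        have := h2'.1
        rw [hy] at this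
        exact hD.of_mul_monic_left this
      have hdeg : D.natDegree + v2.natDegree = n - i := by
        rw [← hD.natDegree_mul hv2, ← hy]
        exact h2'.2
      rw [hx, mem_lt_mul hD rfl (by omega)] at h1
      rw [hy, mem_mon_mul hD rfl (by omega)] at h2
      have hwe : w = (D * v1, D * v2) := Prod.ext hx hy
      refine ⟨⟨i + D.natDegree, g * D, (v1, v2)⟩, ?_, ?_⟩
      · rw [Finset.mem_sigma, Finset.mem_sigma, Finset.mem_filter, Finset.mem_range, mem_mon]
        refine ⟨by simp only; omega, ⟨hgm.mul hD, ?_⟩, ?_, ?_⟩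
        · simp only
          rw [hgm.natDegree_mul hD, hgi]
        · unfold cI
          rw [Finset.mem_filter, Finset.mem_product]
          simp only
          rw [show n - (i + D.natDegree) = n - i - D.natDegree by omega]
          exact ⟨⟨h1, h2⟩, hc⟩
        · simp only
          rw [cond_iff hb hg0, ← hwe]
          exact h3
      · simp only
        rw [mul_div_cancel_left₀ _ hg0, hwe]
  · rw [Finset.card_eq_zero, Finset.eq_empty_iff_forall_notMem]
    intro t ht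
    obtain ⟨G', e1, e2, e3, e4, -⟩ := hmem t ht
    omega

end Pool.Agent.H166.EX
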